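import Pool.Agent.Zk72.NS.Stm
import Pool.Agent.H984R4.NP.PL

set_option autoImplicit false

/-! # The curve of a path, and the curve of the path without one piece -/

namespace Pool.Agent.Zk25.NS

open H974 Finset H342P H984P H984N

/-- Comparison of two curves by a monotone surjective reparametrisation. -/
theorem cdist_le_of_mono (f g : C(unitInterval, ℂ)) (be : unitInterval → unitInterval)
    (hc : Continuous be) (hm : Monotone be) (h0 : be 0 = 0) (h1 : be 1 = 1) (x : ℝ)
    (h : ∀ t, dist (f t) (g (be t)) ≤ x) : H342L.cdist f g ≤ x := by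
  refine le_of_forall_pos_le_add fun ε hε => ?_
  have huc : UniformContinuous g := CompactSpace.uniformContinuous_of_continuous g.continuous
  obtain ⟨δ, hδ, hδ2⟩ := Metric.uniformContinuous_iff.1 huc ε hε
  obtain ⟨η, hη0, hη1, hηδ⟩ : ∃ η : ℝ, 0 < η ∧ η ≤ 1 ∧ η < δ :=
    ⟨min 1 (δ / 2), by positivity, min_le_left _ _, (min_le_right _ _).trans_lt (by linarith)⟩
  let F : unitInterval → unitInterval := fun t => ⟨(1 - η) * be t + η * t, by
    constructor
    · have := (be t).2.1
      have := t.2.1
      nlinarith [mul_nonneg (by linarith : 0 ≤ 1 - η) (be t).2.1, mul_nonneg hη0.le t.2.1]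
    · nlinarith [mul_nonneg (by linarith : 0 ≤ 1 - η) (by linarith [(be t).2.2] : 0 ≤ 1 - (be t : ℝ)),
        mul_nonneg hη0.le (by linarith [t.2.2] : 0 ≤ 1 - (t : ℝ))]⟩
  have hF : ∀ t, (F t : ℝ) = (1 - η) * be t + η * t := fun t => rfl
  have hFm : StrictMono F := by
    intro s t hst
    have h2 : (be s : ℝ) ≤ be t := hm hst.le
    have h3 : (s : ℝ) < t := hst
    show (F s : ℝ) < F t
    rw [hF, hF]
    nlinarith [mul_nonneg (by linarith : 0 ≤ 1 - η) (sub_nonneg.2 h2),
      mul_pos hη0 (sub_pos.2 h3)]
  have hFc : Continuous F := by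
    refine Continuous.subtype_mk ?_ _
    exact (continuous_const.mul (continuous_subtype_val.comp hc)).add
      (continuous_const.mul continuous_subtype_val)
  have hF0 : F 0 = 0 := by
    apply Subtype.ext
    rw [hF, h0]
    simp
  have hF1 : F 1 = 1 := by
    apply Subtype.ext
    rw [hF, h1]
    simp
  have hFs : Function.Surjective F := by
    intro y
    exact mem_range_of_exists_le_of_exists_ge hFc ⟨0, by rw [hF0]; exact y.2.1⟩
      ⟨1, by rw [hF1]; exact y.2.2⟩
  refine (H342L.cdist_le f g (hFm.orderIsoOfSurjective F hFs)).trans ?_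
  have hx : 0 ≤ x := dist_nonneg.trans (h 0)
  rw [ContinuousMap.dist_le (by linarith)]
  intro t
  rw [H342L.rep_apply]
  have e1 : (hFm.orderIsoOfSurjective F hFs) t = F t := rfl
  rw [e1]
  refine (dist_triangle _ (g (be t)) _).trans (add_le_add (h t) (hδ2 ?_).le)
  rw [Subtype.dist_eq, Real.dist_eq, hF]
  have e2 : (be t : ℝ) - ((1 - η) * be t + η * t) = η * (be t - t) := by ring
  rw [e2, abs_mul, abs_of_pos hη0]
  have e3 : |(be t : ℝ) - t| ≤ 1 := by
    rw [abs_le]
    constructor <;> linarith [(be t).2.1, (be t).2.2, t.2.1, t.2.2]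
  calc η * |(be t : ℝ) - t| ≤ η * 1 := mul_le_mul_of_nonneg_left e3 hη0.le
    _ < δ := by linarith

theorem t_CUT : Pool.Agent.Zk72.NS.S_CUT := by
  intro N N' i l p p' x hil hlN hN' hp1 hp2 hx
  have hx0 : 0 ≤ x := by
    have := hx i le_rfl hil.le
    rwa [dist_self] at this
  have hil' : (i : ℝ) < l := by exact_mod_cast hil
  have hlN' : (l : ℝ) < N := by exact_mod_cast hlN
  have hi0 : (0 : ℝ) ≤ i := Nat.cast_nonneg i
  have hN0 : (0 : ℝ) < N := by linarith
  have hN'e : (N' : ℝ) = i + (N - l) := by
    rw [hN', Nat.cast_add, Nat.cast_sub hlN.le]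
  have hN'0 : (0 : ℝ) < N' := by rw [hN'e]; linarith
  -- the reparametrisation
  let be : unitInterval → unitInterval := fun s =>
    ⟨(min ((s : ℝ) * N) i + max ((s : ℝ) * N - l) 0) / N', by
      have hs0 : 0 ≤ (s : ℝ) * N := mul_nonneg s.2.1 hN0.le
      have hs1 : (s : ℝ) * N ≤ N := by nlinarith [s.2.2]
      constructor
      · apply div_nonneg _ hN'0.le
        exact add_nonneg (le_min hs0 hi0) (le_max_right _ _)
      · rw [div_le_one hN'0, hN'e]
        refine add_le_add (min_le_right _ _) (max_le (by linarith) (by linarith))⟩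
  have hbe : ∀ s, (be s : ℝ) * N' = min ((s : ℝ) * N) i + max ((s : ℝ) * N - l) 0 := fun s =>
    div_mul_cancel₀ _ hN'0.ne'
  apply cdist_le_of_mono _ _ be
  · refine Continuous.subtype_mk ?_ _
    fun_prop
  · intro s t hst
    have h1 : (s : ℝ) * N ≤ t * N := mul_le_mul_of_nonneg_right hst hN0.le
    show (min ((s : ℝ) * N) i + max ((s : ℝ) * N - l) 0) / N' ≤
      (min ((t : ℝ) * N) i + max ((t : ℝ) * N - l) 0) / N'
    apply div_le_div_of_nonneg_right _ hN'0.le
    exact add_le_add (min_le_min_right _ h1) (max_le_max_right _ (by linarith))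
  · apply Subtype.ext
    show (min (((0 : unitInterval) : ℝ) * N) i + max (((0 : unitInterval) : ℝ) * N - l) 0) / N' =
      ((0 : unitInterval) : ℝ)
    have e1 : ((0 : unitInterval) : ℝ) = 0 := rfl
    rw [e1, zero_mul, min_eq_left hi0, max_eq_right (by linarith), add_zero, zero_div]
  · apply Subtype.ext
    show (min (((1 : unitInterval) : ℝ) * N) i + max (((1 : unitInterval) : ℝ) * N - l) 0) / N' =
      ((1 : unitInterval) : ℝ)
    have e1 : ((1 : unitInterval) : ℝ) = 1 := rfl
    rw [e1, one_mul, min_eq_right (by linarith), max_eq_left (by linarith), ← hN'e,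
      div_self hN'0.ne']
  · intro s
    have hb := hbe s
    have hNpos : 0 < N := by omega
    obtain ⟨k, hk, hk1, hk2⟩ := pl_exists_seg hNpos s
    obtain ⟨u, hu⟩ : ∃ u : ℝ, u = (s : ℝ) * N := ⟨_, rfl⟩
    rw [← hu] at hb hk1 hk2
    have hf : pl N p s = p k + ((u - k : ℝ) : ℂ) * (p (k + 1) - p k) := by
      rw [hu]
      exact pl_seg hk (by rw [← hu]; exact hk1) (by rw [← hu]; exact hk2)
    rcases Nat.lt_or_ge k i with h1 | h1
    · -- before the removed piece
      have h1' : (k : ℝ) + 1 ≤ i := by exact_mod_cast h1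
      have hb' : (be s : ℝ) * N' = u := by
        rw [hb, min_eq_left (by linarith), max_eq_right (by linarith), add_zero]
      have hg := pl_seg (N := N') (p := p') (k := k) (by omega) (s := be s)
        (by rw [hb']; exact hk1) (by rw [hb']; exact hk2)
      rw [hb', hp1 k h1.le, hp1 (k + 1) h1] at hg
      rw [hf, hg, dist_self]
      exact hx0
    · have h1' : (i : ℝ) ≤ k := by exact_mod_cast h1
      rcases Nat.lt_or_ge k l with h2 | h2
      · -- the removed piece
        have h2' : (k : ℝ) + 1 ≤ l := by exact_mod_cast h2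
        have hb' : (be s : ℝ) * N' = i := by
          rw [hb, min_eq_right (by linarith), max_eq_right (by linarith), add_zero]
        have hg := pl_seg (N := N') (p := p') (k := i) (by omega) (s := be s)
          (by rw [hb']) (by rw [hb']; linarith)
        rw [hb', sub_self, Complex.ofReal_zero, zero_mul, add_zero, hp1 i le_rfl] at hg
        rw [hf, hg, dist_eq_norm]
        have e1 : p k + ((u - k : ℝ) : ℂ) * (p (k + 1) - p k) - p i =
            ((1 - (u - k) : ℝ) : ℂ) * (p k - p i) + ((u - k : ℝ) : ℂ) * (p (k + 1) - p i) := by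
          push_cast
          ring
        rw [e1]
        refine (norm_add_le _ _).trans ?_
        rw [norm_mul, norm_mul, Complex.norm_real, Complex.norm_real, Real.norm_eq_abs,
          Real.norm_eq_abs, abs_of_nonneg (by linarith), abs_of_nonneg (by linarith),
          ← dist_eq_norm, ← dist_eq_norm]
        have h3 := hx k h1 h2.le
        have h4 := hx (k + 1) (by omega) h2
        nlinarith [mul_le_mul_of_nonneg_left h3 (by linarith : 0 ≤ 1 - (u - k)),
          mul_le_mul_of_nonneg_left h4 (by linarith : 0 ≤ u - k)]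
      · -- after the removed piece
        have h2' : (l : ℝ) ≤ k := by exact_mod_cast h2
        obtain ⟨m, rfl⟩ := Nat.exists_eq_add_of_le h2
        push_cast at hk1 hk2 h1' h2'
        have hb' : (be s : ℝ) * N' = i + (u - l) := by
          rw [hb, min_eq_right (by linarith), max_eq_left (by linarith)]
        have hg := pl_seg (N := N') (p := p') (k := i + m) (by omega) (s := be s)
          (by rw [hb']; push_cast; linarith) (by rw [hb']; push_cast; linarith)
        rw [hb'] at hg
        have h5 : p' (i + m + 1) = p (l + m + 1) := hp2 (m + 1) (by omega) (by omega)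
        rw [h5] at hg
        rcases Nat.eq_zero_or_pos m with h3 | h3
        · subst h3
          rw [add_zero, hp1 i le_rfl] at hg
          rw [hf, hg, dist_eq_norm]
          have e1 : p (l + 0) + ((u - ((l + 0 : ℕ) : ℝ) : ℝ) : ℂ) * (p (l + 0 + 1) - p (l + 0)) -
              (p i + ((i + (u - l) - i : ℝ) : ℂ) * (p (l + 0 + 1) - p i)) =
              ((1 - (u - l) : ℝ) : ℂ) * (p l - p i) := by
            rw [add_zero]
            push_cast
            ring
          rw [e1, norm_mul, Complex.norm_real, Real.norm_eq_abs, ← dist_eq_norm]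
          have h6 := hx l hil.le le_rfl
          push_cast at hk1 hk2
          rw [abs_of_nonneg (by linarith)]
          nlinarith [mul_le_mul_of_nonneg_left h6 (by linarith : 0 ≤ 1 - (u - l)),
            mul_nonneg (by linarith : 0 ≤ u - l) hx0]
        · rw [hp2 m h3 (by omega)] at hg
          rw [hf, hg, dist_eq_norm]
          have e1 : p (l + m) + ((u - ((l + m : ℕ) : ℝ) : ℝ) : ℂ) * (p (l + m + 1) - p (l + m)) -
              (p (l + m) + ((i + (u - l) - ((i + m : ℕ) : ℝ) : ℝ) : ℂ) *
                (p (l + m + 1) - p (l + m))) = 0 := by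
            push_cast
            ring
          rw [e1, norm_zero]
          exact hx0

end Pool.Agent.Zk25.NS
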